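import Pool.Agent.W2helper77.CS.Stm

/-!
# Project CS (helper77, MP_8de615_co), piece LOW: the explicit list
-/

set_option autoImplicit false

namespace Pool.Agent.W2helper71.CS

open Pool.Agent.W2helper77.CS Real

/-! ### `asc` of concatenations -/

lemma asc_snoc (l : List ℤ) (a : ℤ) : asc (l ++ [a]) = asc l + l.countP (fun b => b < a) := by
  induction l with
  | nil => simp [asc]
  | cons x l ih =>
    simp only [List.cons_append, asc, ih, List.countP_append, List.countP_cons, List.countP_nil]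
    omega

lemma asc_append (l l' : List ℤ) (h : ∀ x ∈ l, ∀ y ∈ l', y ≤ x) :
    asc (l ++ l') = asc l + asc l' := by
  induction l with
  | nil => simp [asc]
  | cons x l ih =>
    have h1 := ih fun x hx => h x (List.mem_cons_of_mem _ hx)
    have h2 : l'.countP (fun b => decide (x < b)) = 0 := by
      rw [List.countP_eq_zero]
      intro y hy
      have := h x List.mem_cons_self y hy
      simpa using this
    simp only [List.cons_append, asc, h1, List.countP_append, h2]
    omega

lemma asc_eq_zero (l : List ℤ) (h : l.Pairwise fun a b => b ≤ a) : asc l = 0 := by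
  induction l with
  | nil => rfl
  | cons x l ih =>
    rw [List.pairwise_cons] at h
    have h2 : l.countP (fun b => decide (x < b)) = 0 := by
      rw [List.countP_eq_zero]
      intro y hy
      have := h.1 y hy
      simpa using this
    simp only [asc, ih h.2, h2]

/-! ### the list -/

/-- the values `-(2i+1)`, `a ≤ i < b` -/
def Ng (a b : ℕ) : List ℤ := (List.range' a (b - a)).map fun i : ℕ => -(2 * (i : ℤ) + 1)

/-- the values `2(m-1-i)+1`, `i < j` -/
def Ps (m j : ℕ) : List ℤ := (List.range j).map fun i : ℕ => 2 * ((m : ℤ) - 1 - i) + 1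

/-- the list -/
def Ls (m : ℕ) (N : ℕ → ℕ) : ℕ → List ℤ
  | 0 => []
  | j + 1 => Ls m N j ++ Ng (N j) (N (j + 1)) ++ [2 * ((m : ℤ) - 1 - j) + 1]

lemma Ng_append {a b c : ℕ} (h1 : a ≤ b) (h2 : b ≤ c) : Ng a b ++ Ng b c = Ng a c := by
  unfold Ng
  rw [← List.map_append]
  congr 1
  have : List.range' b (c - b) = List.range' (a + (b - a)) (c - b) := by
    congr 1
    omega
  rw [this, List.range'_append_1]
  congr 1
  omega

lemma Ps_succ (m j : ℕ) : Ps m (j + 1) = Ps m j ++ [2 * ((m : ℤ) - 1 - j) + 1] := by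
  unfold Ps
  rw [List.range_succ, List.map_append]
  rfl

lemma perm_Ls (m : ℕ) {N : ℕ → ℕ} (hN : Monotone N) (h0 : N 0 = 0) (j : ℕ) :
    (Ls m N j).Perm (Ng 0 (N j) ++ Ps m j) := by
  induction j with
  | zero => simp [Ls, Ng, Ps, h0]
  | succ j ih =>
    rw [Ls, Ps_succ, ← Ng_append (Nat.zero_le (N j)) (hN (Nat.le_succ j)), ← List.append_assoc]
    refine List.Perm.append_right _ ?_
    refine (ih.append_right _).trans ?_
    rw [List.append_assoc, List.append_assoc]
    exact List.Perm.append_left _ List.perm_append_comm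

lemma perm_vals (m : ℕ) : (Ng 0 m ++ Ps m m).Perm (vals m) := by
  have h1 : (Ps m m).Perm ((List.range m).map fun k : ℕ => 2 * (k : ℤ) + 1) := by
    have : Ps m m = ((List.range m).map fun k : ℕ => 2 * (k : ℤ) + 1).reverse := by
      rw [← List.map_reverse, List.range_eq_range', List.reverse_range', Ps, List.map_map]
      refine List.map_congr_left fun i hi => ?_
      have := List.mem_range.1 hi
      simp only [Function.comp]
      have h3 : ((0 + m - 1 - i : ℕ) : ℤ) = (m : ℤ) - 1 - i := by omega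
      rw [h3]
    rw [this]
    exact List.reverse_perm _
  have h2 : Ng 0 m = (List.range m).map fun k : ℕ => -(2 * (k : ℤ) + 1) := by
    rw [Ng, List.range_eq_range', Nat.sub_zero]
  have h3 : vals m = (List.range m).flatMap fun k : ℕ =>
      [(2 * (k : ℤ) + 1)] ++ [-(2 * (k : ℤ) + 1)] := rfl
  rw [h2, h3]
  refine (h1.append_left _).trans ?_
  refine List.perm_append_comm.trans ?_
  have h4 := List.flatMap_append_perm (List.range m) (fun k : ℕ => [(2 * (k : ℤ) + 1)])
    (fun k : ℕ => [-(2 * (k : ℤ) + 1)])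
  refine List.Perm.trans ?_ h4
  rw [List.map_eq_flatMap, List.map_eq_flatMap]

lemma sum_Ng0 (b : ℕ) : (Ng 0 b).sum = -(b : ℤ) ^ 2 := by
  induction b with
  | zero => simp [Ng]
  | succ b ih =>
    have h1 : Ng b (b + 1) = [-(2 * (b : ℤ) + 1)] := by simp [Ng]
    rw [← Ng_append (Nat.zero_le b) (Nat.le_succ b), List.sum_append, ih, h1]
    simp
    ring

lemma sum_Ps (m j : ℕ) : (Ps m j).sum = (m : ℤ) ^ 2 - ((m : ℤ) - j) ^ 2 := by
  induction j with
  | zero => simp [Ps]
  | succ j ih =>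
    rw [Ps_succ, List.sum_append, ih]
    simp
    ring

lemma sum_Ls (m : ℕ) {N : ℕ → ℕ} (hN : Monotone N) (h0 : N 0 = 0) (j : ℕ) :
    (Ls m N j).sum = (m : ℤ) ^ 2 - ((m : ℤ) - j) ^ 2 - (N j : ℤ) ^ 2 := by
  rw [(perm_Ls m hN h0 j).sum_eq, List.sum_append, sum_Ng0, sum_Ps]
  ring

lemma mem_Ng {a b : ℕ} {x : ℤ} (h : x ∈ Ng a b) : ∃ i : ℕ, a ≤ i ∧ i < b ∧ x = -(2 * (i : ℤ) + 1) := by
  unfold Ng at h
  rw [List.mem_map] at h
  obtain ⟨i, hi, rfl⟩ := h
  rw [List.mem_range'_1] at hi
  exact ⟨i, hi.1, by omega, rfl⟩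

lemma mem_Ps {m j : ℕ} {x : ℤ} (h : x ∈ Ps m j) : ∃ i : ℕ, i < j ∧ x = 2 * ((m : ℤ) - 1 - i) + 1 := by
  unfold Ps at h
  rw [List.mem_map] at h
  obtain ⟨i, hi, rfl⟩ := h
  exact ⟨i, List.mem_range.1 hi, rfl⟩

/-- all prefix sums are `≤ 0` -/
lemma pre_append_neg {l l' : List ℤ} (h : ∀ i, (l.take i).sum ≤ 0) (h' : ∀ x ∈ l', x ≤ 0) :
    ∀ i, ((l ++ l').take i).sum ≤ 0 := by
  intro i
  rw [List.take_append, List.sum_append]
  have h1 : (l'.take (i - l.length)).sum ≤ 0 := by
    have : ∀ l'' : List ℤ, (∀ x ∈ l'', x ≤ 0) → l''.sum ≤ 0 := by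
      intro l'' hl
      induction l'' with
      | nil => simp
      | cons a t ih =>
        rw [List.sum_cons]
        have := hl a List.mem_cons_self
        have := ih fun x hx => hl x (List.mem_cons_of_mem _ hx)
        omega
    exact this _ fun x hx => h' x (List.mem_of_mem_take hx)
  have := h i
  omega

lemma pre_snoc {l : List ℤ} {a : ℤ} (h : ∀ i, (l.take i).sum ≤ 0) (h' : (l ++ [a]).sum ≤ 0) :
    ∀ i, ((l ++ [a]).take i).sum ≤ 0 := by
  intro i
  rcases Nat.lt_or_ge l.length i with hi | hi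
  · rwa [List.take_of_length_le (by simp; omega)]
  · rw [List.take_append_of_le_length hi]
    exact h i

lemma pre_Ls {m : ℕ} {N : ℕ → ℕ} (hN : Monotone N) (h0 : N 0 = 0)
    (hb : ∀ j ≤ m, (m : ℤ) ^ 2 - ((m : ℤ) - j) ^ 2 ≤ (N j : ℤ) ^ 2) (j : ℕ) (hj : j ≤ m) :
    ∀ i, ((Ls m N j).take i).sum ≤ 0 := by
  induction j with
  | zero => simp [Ls]
  | succ j ih =>
    have ih := ih (by omega)
    have h1 := pre_append_neg ih (l' := Ng (N j) (N (j + 1))) (by
      intro x hx
      obtain ⟨i, -, -, rfl⟩ := mem_Ng hx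
      omega)
    have h2 : (Ls m N (j + 1)).sum ≤ 0 := by
      rw [sum_Ls m hN h0]
      have := hb (j + 1) hj
      omega
    rw [Ls] at h2 ⊢
    exact pre_snoc h1 h2

lemma asc_Ls {m : ℕ} {N : ℕ → ℕ} (hN : Monotone N) (h0 : N 0 = 0) (j : ℕ) (hj : j ≤ m) :
    asc (Ls m N j) = ∑ k ∈ Finset.range j, N (k + 1) := by
  induction j with
  | zero => simp [Ls, asc]
  | succ j ih =>
    have ih := ih (by omega)
    rw [Ls, asc_snoc, asc_append, ih, Finset.sum_range_succ]
    · have h1 : asc (Ng (N j) (N (j + 1))) = 0 := by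
        refine asc_eq_zero _ ?_
        unfold Ng
        rw [List.pairwise_map]
        refine (List.pairwise_lt_range' (s := N j) (n := N (j + 1) - N j)).imp ?_
        intro a b hab
        omega
      have h2 : (Ls m N j ++ Ng (N j) (N (j + 1))).Perm (Ng 0 (N (j + 1)) ++ Ps m j) := by
        rw [← Ng_append (Nat.zero_le (N j)) (hN (Nat.le_succ j))]
        refine ((perm_Ls m hN h0 j).append_right _).trans ?_
        rw [List.append_assoc, List.append_assoc]
        exact List.Perm.append_left _ List.perm_append_comm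
      have h3 : (Ls m N j ++ Ng (N j) (N (j + 1))).countP
          (fun b => decide (b < 2 * ((m : ℤ) - 1 - j) + 1)) = N (j + 1) := by
        rw [h2.countP_eq, List.countP_append]
        have h4 : (Ng 0 (N (j + 1))).countP
            (fun b => decide (b < 2 * ((m : ℤ) - 1 - j) + 1)) = (Ng 0 (N (j + 1))).length := by
          rw [List.countP_eq_length]
          intro x hx
          obtain ⟨i, -, -, rfl⟩ := mem_Ng hx
          simp only [decide_eq_true_eq]
          omega
        have h5 : (Ps m j).countP (fun b => decide (b < 2 * ((m : ℤ) - 1 - j) + 1)) = 0 := by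
          rw [List.countP_eq_zero]
          intro x hx
          obtain ⟨i, hi, rfl⟩ := mem_Ps hx
          simp only [decide_eq_true_eq]
          omega
        rw [h4, h5]
        simp [Ng]
      rw [h1, h3]
      rfl
    · intro x hx y hy
      obtain ⟨i, hi, hi', rfl⟩ := mem_Ng hy
      have := (perm_Ls m hN h0 j).mem_iff.1 hx
      rw [List.mem_append] at this
      rcases this with h | h
      · obtain ⟨i', hj1, hj2, rfl⟩ := mem_Ng h
        omega
      · obtain ⟨i', hj1, rfl⟩ := mem_Ps h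
        omega

theorem low : S_LOW := by
  intro m
  set N : ℕ → ℕ := fun j => ⌈√((m : ℝ) ^ 2 - ((m - j : ℕ) : ℝ) ^ 2)⌉₊ with hNdef
  have hN : Monotone N := by
    intro a b hab
    refine Nat.ceil_mono (Real.sqrt_le_sqrt ?_)
    have h1 : ((m - b : ℕ) : ℝ) ≤ ((m - a : ℕ) : ℝ) := by
      exact_mod_cast Nat.sub_le_sub_left hab m
    have h2 : (0 : ℝ) ≤ ((m - b : ℕ) : ℝ) := Nat.cast_nonneg _
    nlinarith
  have h0 : N 0 = 0 := by simp [hNdef]
  have hm : N m = m := by simp [hNdef]
  have hb : ∀ j ≤ m, (m : ℤ) ^ 2 - ((m : ℤ) - j) ^ 2 ≤ (N j : ℤ) ^ 2 := by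
    intro j hj
    have h1 : √((m : ℝ) ^ 2 - ((m - j : ℕ) : ℝ) ^ 2) ≤ (N j : ℝ) := Nat.le_ceil _
    have h2 : (m : ℝ) ^ 2 - ((m - j : ℕ) : ℝ) ^ 2 ≤ (N j : ℝ) ^ 2 := by
      rw [Real.sqrt_le_left (Nat.cast_nonneg _)] at h1
      exact h1
    rw [Nat.cast_sub hj] at h2
    exact_mod_cast h2
  refine ⟨Ls m N m, ?_, pre_Ls hN h0 hb m le_rfl, ?_⟩
  · have := perm_Ls m hN h0 m
    rw [hm] at this
    exact this.trans (perm_vals m)
  · rw [asc_Ls hN h0 m le_rfl, ← Finset.sum_range_reflect, Nat.cast_sum]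
    refine Finset.sum_le_sum fun i hi => ?_
    have hi := Finset.mem_range.1 hi
    have h1 : m - (m - 1 - i + 1) = i := by omega
    simp only [hNdef, h1]
    exact (Nat.ceil_lt_add_one (Real.sqrt_nonneg _)).le

end Pool.Agent.W2helper71.CS
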